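import Pool.Agent.Helper10.GO.GoalsP2

/-!
# Project GO (MP_6af536_nt), packet LIN2
-/

set_option autoImplicit false

open MvPolynomial Filter Topology

noncomputable section

namespace Pool.Agent.Helper36.GO

open Pool.Agent.Helper10.GO

theorem map_pit {R S : Type} [CommRing R] [CommRing S] (φ : R →+* S) {N : ℕ}
    (f : Fin N → MvPolynomial (Fin N) R) (n : ℕ) (i : Fin N) :
    map φ (pit f n i) = pit (fun i => map φ (f i)) n i := by
  induction n generalizing i with
  | zero => simp [pit]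
  | succ n ih =>
    have h : map φ (bind₁ (pit f n) (f i)) = bind₁ (fun j => map φ (pit f n j)) (map φ (f i)) :=
      map_bind₁ _ _ _
    have h2 : (fun j => map φ (pit f n j)) = pit (fun i => map φ (f i)) n := funext ih
    rw [h2] at h
    exact h

theorem p_dvd_of_toZMod {p : ℕ} [Fact p.Prime] {x : ℤ_[p]} (h : PadicInt.toZMod x = 0) :
    (p : ℤ_[p]) ∣ x := by
  have h1 : x ∈ RingHom.ker (PadicInt.toZMod : ℤ_[p] →+* ZMod p) := h
  rw [PadicInt.ker_toZMod, PadicInt.maximalIdeal_eq_span_p, Ideal.mem_span_singleton] at h1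
  exact h1

theorem toZMod_p {p : ℕ} [Fact p.Prime] : PadicInt.toZMod (p : ℤ_[p]) = 0 := by
  rw [map_natCast, ZMod.natCast_self]

/-- a polynomial whose reduction is zero is divisible by `p` -/
theorem dvd_of_map_eq_zero {p : ℕ} [Fact p.Prime] {N : ℕ} (P : MvPolynomial (Fin N) ℤ_[p])
    (h : map (PadicInt.toZMod : ℤ_[p] →+* ZMod p) P = 0) :
    ∃ Q : MvPolynomial (Fin N) ℤ_[p], P = C (p : ℤ_[p]) * Q := by
  have h1 : (C (p : ℤ_[p]) : MvPolynomial (Fin N) ℤ_[p]) ∣ P := by
    rw [C_dvd_iff_dvd_coeff]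
    intro m
    refine p_dvd_of_toZMod ?_
    have h2 := congrArg (coeff m) h
    rw [coeff_map, coeff_zero] at h2
    exact h2
  exact h1

theorem map_eval_eq {R S : Type} [CommRing R] [CommRing S] (φ : R →+* S) {N : ℕ}
    (x : Fin N → R) (g : MvPolynomial (Fin N) R) :
    φ (eval x g) = eval (fun i => φ (x i)) (map φ g) := by
  rw [eval_map]
  change φ (eval₂ (RingHom.id R) x g) = _
  rw [eval₂_comp_left, RingHom.comp_id]
  rfl

/-- the orbit of the reductions is eventually periodic -/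
theorem red_per {p : ℕ} [Fact p.Prime] {N : ℕ} (f : Fin N → MvPolynomial (Fin N) ℤ_[p])
    (a : ℕ → Fin N → ℤ_[p]) (ha : ∀ n i, a (n + 1) i = eval (a n) (f i)) :
    ∃ n₀ a₀ : ℕ, 1 ≤ a₀ ∧ ∀ r i,
      (PadicInt.toZMod (a (n₀ + r + a₀) i) : ZMod p) = PadicInt.toZMod (a (n₀ + r) i) := by
  have hfin : ∃ s t : ℕ, s ≠ t ∧ (fun i => (PadicInt.toZMod (a s i) : ZMod p)) =
      fun i => PadicInt.toZMod (a t i) :=
    Finite.exists_ne_map_eq_of_infinite fun n : ℕ => fun i : Fin N =>
      (PadicInt.toZMod (a n i) : ZMod p)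
  have key : ∀ s t : ℕ, (fun i => (PadicInt.toZMod (a s i) : ZMod p)) =
      (fun i => PadicInt.toZMod (a t i)) → ∀ r, (fun i => (PadicInt.toZMod (a (s + r) i) : ZMod p)) =
      fun i => PadicInt.toZMod (a (t + r) i) := by
    intro s t hst r
    induction r with
    | zero => exact hst
    | succ r ih =>
      have h : ∀ u, (fun i => (PadicInt.toZMod (a (u + 1) i) : ZMod p)) =
          fun i => eval (fun i => (PadicInt.toZMod (a u i) : ZMod p))
            (map (PadicInt.toZMod : ℤ_[p] →+* ZMod p) (f i)) := by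
        intro u
        funext i
        rw [ha, map_eval_eq]
      rw [← add_assoc, ← add_assoc, h (s + r), h (t + r), ih]
  obtain ⟨s, t, hne, hst⟩ := hfin
  rcases Nat.lt_or_gt_of_ne hne with hlt | hlt
  · refine ⟨s, t - s, by omega, fun r i => ?_⟩
    have h := congrFun (key t s hst.symm r) i
    have e : s + r + (t - s) = t + r := by omega
    rw [e]; exact h
  · refine ⟨t, s - t, by omega, fun r i => ?_⟩
    have h := congrFun (key s t hst r) i
    have e : t + r + (s - t) = s + r := by omega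
    rw [e]; exact h

/-- evaluation of a polynomial at `b + p z` -/
theorem eval_shift {R : Type} [CommRing R] {N : ℕ} (g : MvPolynomial (Fin N) R) (ϖ : R)
    (b z : Fin N → R) :
    eval (fun i => b i + ϖ * z i) g =
      eval z (aeval (fun j => (C (b j) + C ϖ * X j : MvPolynomial (Fin N) R)) g) := by
  induction g using MvPolynomial.induction_on with
  | C a => simp
  | add p q hp hq => simp [hp, hq]
  | mul_X p i hp => simp [hp]

theorem lin2 (h1 : S_CHN) (h2 : S_CHN2) (h3 : S_TAY) (h4 : S_AFP) : S_LIN2 := by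
  intro p _ N f a hdet ha
  obtain ⟨n₀, a₀, ha₀, hper⟩ := red_per f a ha
  set m := Nat.card (Equiv.Perm (Fin N → ZMod p)) with hm
  have hm1 : 1 ≤ m := (h4 (ZMod p) N 1 0 (by simp)).1
  refine ⟨n₀, a₀ * m, Nat.mul_pos ha₀ hm1, fun r => ?_⟩
  set b := a (n₀ + r) with hb
  set g := pit f a₀ with hg
  obtain ⟨-, -, hch⟩ := h1 ℤ_[p] N f
  have hiter := hch a ha
  -- the first order expansion
  have hv : ∀ i, ∃ v : ℤ_[p], eval b (g i) = b i + p * v := by
    intro i
    have h5 : (p : ℤ_[p]) ∣ a (n₀ + r + a₀) i - a (n₀ + r) i := by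
      refine p_dvd_of_toZMod ?_
      rw [map_sub, hper, sub_self]
    obtain ⟨v, hv⟩ := h5
    refine ⟨v, ?_⟩
    rw [hg, hb, ← hiter (n₀ + r) a₀ i, ← hv]
    ring
  choose v hv using hv
  have hQ : ∀ i, ∃ Q : MvPolynomial (Fin N) ℤ_[p],
      aeval (fun j => (C (b j) + C (p : ℤ_[p]) * X j : MvPolynomial (Fin N) ℤ_[p])) (g i) =
      C (eval b (g i)) + C (p : ℤ_[p]) * ∑ j, C (eval b (pderiv j (g i))) * X j +
        C ((p : ℤ_[p]) ^ 2) * Q := fun i => h3 ℤ_[p] N (g i) p b
  choose Q hQ using hQ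
  set A : Matrix (Fin N) (Fin N) ℤ_[p] := Matrix.of fun i j => eval b (pderiv j (g i)) with hA
  set h : Fin N → MvPolynomial (Fin N) ℤ_[p] :=
    fun i => C (v i) + ∑ j, C (A i j) * X j + C (p : ℤ_[p]) * Q i with hh
  have hgh : ∀ i, aeval (fun j => (C (b j) + C (p : ℤ_[p]) * X j : MvPolynomial (Fin N) ℤ_[p]))
      (g i) = C (b i) + C (p : ℤ_[p]) * h i := by
    intro i
    rw [hQ, hv, hh, hA]
    simp only [Matrix.of_apply, map_add, map_mul, map_pow, mul_add]
    ring
  -- the reduction of `h`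
  have hAdet : IsUnit A.det := h2 ℤ_[p] N f a ha hdet (n₀ + r) a₀
  set A' : Matrix (Fin N) (Fin N) (ZMod p) := A.map (PadicInt.toZMod : ℤ_[p] →+* ZMod p) with hA'
  have hA'det : A'.det ≠ 0 := by
    have h5 : A'.det = (PadicInt.toZMod : ℤ_[p] →+* ZMod p) A.det := by
      rw [hA', RingHom.map_det]; rfl
    rw [h5]
    exact (hAdet.map (PadicInt.toZMod : ℤ_[p] →+* ZMod p)).ne_zero
  have hred : (fun i => map (PadicInt.toZMod : ℤ_[p] →+* ZMod p) (h i)) =
      fun i => (C (PadicInt.toZMod (v i)) + ∑ j, C (A' i j) * X j : MvPolynomial (Fin N) (ZMod p)) := by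
    funext i
    simp only [hh, map_add, map_mul, map_sum, map_C, map_X, hA', Matrix.map_apply]
    rw [toZMod_p, C_0, zero_mul, add_zero]
  have hHred : ∀ i, map (PadicInt.toZMod : ℤ_[p] →+* ZMod p) (pit h m i) = X i := by
    intro i
    rw [map_pit, hred]
    exact (h4 (ZMod p) N A' (fun i => PadicInt.toZMod (v i)) hA'det).2 i
  have hHQ : ∀ i, ∃ Q' : MvPolynomial (Fin N) ℤ_[p],
      pit h m i = X i + C (p : ℤ_[p]) * Q' := by
    intro i
    have h5 : map (PadicInt.toZMod : ℤ_[p] →+* ZMod p) (pit h m i - X i) = 0 := by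
      rw [map_sub, hHred, map_X, sub_self]
    obtain ⟨Q', hQ'⟩ := dvd_of_map_eq_zero _ h5
    exact ⟨Q', by rw [← hQ']; ring⟩
  -- the sequence `z`
  let z : ℕ → Fin N → ℤ_[p] := fun n => Nat.rec 0 (fun _ w i => eval w (h i)) n
  have hz : ∀ n i, z (n + 1) i = eval (z n) (h i) := fun n i => rfl
  have haz : ∀ n i, a (n₀ + r + a₀ * n) i = b i + p * z n i := by
    intro n
    induction n with
    | zero =>
      intro i
      have h5 : z 0 i = 0 := rfl
      rw [h5, Nat.mul_zero, Nat.add_zero, mul_zero, add_zero]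
    | succ n ih =>
      intro i
      have h5 : n₀ + r + a₀ * (n + 1) = (n₀ + r + a₀ * n) + a₀ := by ring
      have h6 : a (n₀ + r + a₀ * n) = fun i => b i + p * z n i := funext ih
      rw [h5, hiter, h6, hz, eval_shift, hgh]
      simp
  obtain ⟨-, -, hch'⟩ := h1 ℤ_[p] N h
  refine ⟨b, pit h m, fun n => z (m * n), hHQ, fun n i => ?_, fun n i => ?_⟩
  · have h5 : m * (n + 1) = m * n + m := by ring
    change z (m * (n + 1)) i = _
    rw [h5]
    exact hch' z hz (m * n) m i
  · rw [mul_assoc]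
    exact haz (m * n) i

/-- LIN is a special case of LIN2 -/
theorem lin_of_lin2 (h : S_LIN2) : S_LIN := fun p _ N f a hu ha =>
  h p N f a (fun n => hu.map (eval (a n))) ha

end Pool.Agent.Helper36.GO
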